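import Pool.Agent.Helper30.KC.GoalsT

/-!
# Project KT (MP_bf413e_co), packet NH: numbers of hubs and of vertices of degree other than 6
-/

set_option autoImplicit false

namespace Pool.Agent.Helper23.KT

open scoped Classical
open Finset
open Pool.Agent.Helper94.KC
open Pool.Agent.Helper30.KC

/-- The packet `NH`. -/
theorem pNH (hCN : StmtCN) : Pool.Agent.Helper30.KC.StmtNH := by
  intro V _ T N t hT hN ht
  have h1 := hCN V T hT univ
  have hk : ∀ k : ℕ, k ≠ 3 → tk T univ k = 0 := by
    intro k hk
    rw [tk, Finset.card_eq_zero, Finset.filter_eq_empty_iff]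
    intro s hs hc
    rw [Finset.inter_univ, hT.card s hs] at hc
    exact hk hc.symm
  have hchi : chiW T univ = chi T := by
    have e1 : edW T univ = ed T := by
      rw [edW]
      exact Finset.filter_true_of_mem fun e _ => Finset.subset_univ e
    have e2 : trW T univ = T := by
      rw [trW]
      exact Finset.filter_true_of_mem fun e _ => Finset.subset_univ e
    rw [chiW, chi, e1, e2, Finset.card_univ]
  rw [hk 1 (by norm_num), hk 2 (by norm_num), hchi] at h1
  have hc : ∀ (p : V → Prop) [DecidablePred p], ((univ.filter p).card : ℤ) = ∑ v : V, if p v then (1 : ℤ) else 0 := by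
    intro p _
    rw [Finset.card_filter]
    push_cast
    rfl
  have h2 : ((univ.filter (fun v => 7 ≤ dg T v)).card : ℤ) ≤
      ∑ v : V, ((dg T v : ℤ) - 6) + ∑ v : V, ((6 - dg T v : ℕ) : ℤ) := by
    rw [hc, ← Finset.sum_add_distrib]
    refine Finset.sum_le_sum fun v _ => ?_
    split_ifs with h <;> omega
  have h3 : ((univ.filter (fun v => dg T v ≠ 6)).card : ℤ) ≤
      ((univ.filter (fun v => 7 ≤ dg T v)).card : ℤ) + ∑ v : V, ((6 - dg T v : ℕ) : ℤ) := by
    rw [hc, hc, ← Finset.sum_add_distrib]
    refine Finset.sum_le_sum fun v _ => ?_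
    split_ifs <;> omega
  have h4 : ∑ v : V, ((6 - dg T v : ℕ) : ℤ) ≤ t := by exact_mod_cast ht
  constructor
  · have : ((univ.filter (fun v => 7 ≤ dg T v)).card : ℤ) ≤ 6 * N + t := by
      push_cast at h1
      linarith
    exact_mod_cast this
  · have : ((univ.filter (fun v => dg T v ≠ 6)).card : ℤ) ≤ 6 * N + 2 * t := by
      push_cast at h1
      linarith
    exact_mod_cast this

end Pool.Agent.Helper23.KT
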